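import Pool.Agent.V5helper99.DC.Defs

/-! # Project DC, job J3 -/

namespace DC99

open Module Finset

/-- sign -/
private noncomputable def J3_s {n : ℕ} (V J : Finset (Fin n)) (i : Fin n) : ℝ :=
  (if i ∈ V then -1 else 1) * (if i ∈ J then 1 else 2)

/-- the functional -/
private noncomputable def J3_l {n : ℕ} (V J : Finset (Fin n)) : StrongDual ℝ (E n) :=
  ∑ i, J3_s V J i • (EuclideanSpace.proj i : E n →L[ℝ] ℝ)

private lemma J3_l_pt {n : ℕ} (V J A : Finset (Fin n)) :
    J3_l V J (pt A) = ∑ i, (if i ∈ J then (1 : ℝ) else 2) -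
      2 * ∑ i ∈ symmDiff V A, (if i ∈ J then (1 : ℝ) else 2) := by
  have h1 : J3_l V J (pt A) = ∑ i, J3_s V J i * (if i ∈ A then (-1 : ℝ) else 1) := by
    simp [J3_l, pt]
  rw [h1, Finset.mul_sum, ← Finset.sum_filter_add_sum_filter_not univ (fun i => i ∈ symmDiff V A)
    (fun i => J3_s V J i * (if i ∈ A then (-1 : ℝ) else 1)),
    ← Finset.sum_filter_add_sum_filter_not univ (fun i => i ∈ symmDiff V A)
    (fun i => (if i ∈ J then (1 : ℝ) else 2))]
  have h2 : univ.filter (fun i => i ∈ symmDiff V A) = symmDiff V A := by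
    ext i; simp
  rw [h2]
  have h3 : ∑ i ∈ symmDiff V A, J3_s V J i * (if i ∈ A then (-1 : ℝ) else 1) =
      ∑ i ∈ symmDiff V A, -(if i ∈ J then (1 : ℝ) else 2) := by
    refine Finset.sum_congr rfl fun i hi => ?_
    rw [Finset.mem_symmDiff] at hi
    unfold J3_s
    rcases hi with ⟨h, h'⟩ | ⟨h, h'⟩
    · rw [if_pos h, if_neg h']; ring
    · rw [if_pos h, if_neg h']; ring
  have h4 : ∑ i ∈ univ.filter (fun i => ¬ i ∈ symmDiff V A),
      J3_s V J i * (if i ∈ A then (-1 : ℝ) else 1) =
      ∑ i ∈ univ.filter (fun i => ¬ i ∈ symmDiff V A), (if i ∈ J then (1 : ℝ) else 2) := by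
    refine Finset.sum_congr rfl fun i hi => ?_
    rw [Finset.mem_filter, Finset.mem_symmDiff] at hi
    unfold J3_s
    by_cases h : i ∈ V
    · have h' : i ∈ A := by
        by_contra h'
        exact hi.2 (Or.inl ⟨h, h'⟩)
      rw [if_pos h, if_pos h']; ring
    · have h' : i ∉ A := fun h' => hi.2 (Or.inr ⟨h', h⟩)
      rw [if_neg h, if_neg h']; ring
  rw [h3, h4, ← Finset.mul_sum, Finset.sum_neg_distrib]
  ring

private lemma J3_odd {n : ℕ} {V A : Finset (Fin n)} (hV : Odd V.card) (hA : Even A.card) :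
    Odd (symmDiff V A).card := by
  have h1 : (symmDiff V A).card + 2 * (V ∩ A).card = V.card + A.card := by
    have h2 : (symmDiff V A).card = (V \ A).card + (A \ V).card := by
      rw [symmDiff_def, Finset.sup_eq_union, Finset.card_union_of_disjoint]
      exact disjoint_sdiff_sdiff
    have h3 := Finset.card_sdiff_add_card_inter V A
    have h4 := Finset.card_sdiff_add_card_inter A V
    rw [Finset.inter_comm A V] at h4
    omega
  rw [Nat.odd_iff] at hV ⊢
  rw [Nat.even_iff] at hA
  omega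

private lemma J3_even {n : ℕ} {V : Finset (Fin n)} (hV : Odd V.card) (j : Fin n) :
    Even (symmDiff V {j}).card := by
  have h2 : (symmDiff V {j}).card = (V \ {j}).card + (({j} : Finset (Fin n)) \ V).card := by
    rw [symmDiff_def, Finset.sup_eq_union, Finset.card_union_of_disjoint]
    exact disjoint_sdiff_sdiff
  have h3 := Finset.card_sdiff_add_card_inter V {j}
  have h4 := Finset.card_sdiff_add_card_inter ({j} : Finset (Fin n)) V
  rw [Finset.inter_comm {j} V, Finset.card_singleton] at h4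
  rw [Nat.odd_iff] at hV
  rw [Nat.even_iff]
  omega

theorem t_J3 {n : ℕ} (V J : Finset (Fin n)) (hV : Odd V.card) (hJ : J.Nonempty) :
    ∃ l : StrongDual ℝ (E n), am l = JT V J := by
  refine ⟨J3_l V J, ?_⟩
  have hw : ∀ i : Fin n, (1 : ℝ) ≤ if i ∈ J then (1 : ℝ) else 2 := fun i => by
    split_ifs <;> norm_num
  have hge : ∀ A : Finset (Fin n), Even A.card →
      (1 : ℝ) ≤ ∑ i ∈ symmDiff V A, (if i ∈ J then (1 : ℝ) else 2) := by
    intro A hA
    obtain ⟨k, hk⟩ : (symmDiff V A).Nonempty := by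
      rw [← Finset.card_pos]
      have := J3_odd hV hA
      rw [Nat.odd_iff] at this
      omega
    exact (hw k).trans (Finset.single_le_sum (f := fun i => if i ∈ J then (1 : ℝ) else 2)
      (fun i _ => zero_le_one.trans (hw i)) hk)
  obtain ⟨j₀, hj₀⟩ := hJ
  have hj : ∀ j, symmDiff V (symmDiff V {j}) = {j} := fun j => symmDiff_symmDiff_cancel_left V {j}
  ext A
  constructor
  · rintro ⟨hA, hmax⟩
    have h1 := hmax (symmDiff V {j₀}) (J3_even hV j₀)
    rw [J3_l_pt, J3_l_pt, hj, Finset.sum_singleton, if_pos hj₀] at h1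
    have h2 : ∑ i ∈ symmDiff V A, (if i ∈ J then (1 : ℝ) else 2) ≤ 1 := by linarith
    have h3 : ((symmDiff V A).card : ℝ) ≤ 1 := by
      refine le_trans ?_ h2
      rw [Finset.card_eq_sum_ones]
      push_cast
      exact Finset.sum_le_sum fun i _ => hw i
    have h4 : (symmDiff V A).card = 1 := by
      have h5 := J3_odd hV hA
      rw [Nat.odd_iff] at h5
      have h6 : (symmDiff V A).card ≤ 1 := by exact_mod_cast h3
      omega
    obtain ⟨j, hj'⟩ := Finset.card_eq_one.1 h4
    rw [hj', Finset.sum_singleton] at h2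
    refine ⟨j, ?_, ?_⟩
    · by_contra h
      rw [if_neg h] at h2
      norm_num at h2
    · rw [← hj', symmDiff_symmDiff_cancel_left]
  · rintro ⟨j, hjJ, rfl⟩
    refine ⟨J3_even hV j, fun B hB => ?_⟩
    rw [J3_l_pt, J3_l_pt, hj, Finset.sum_singleton, if_pos hjJ]
    have := hge B hB
    linarith

end DC99
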